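import Pool.Agent.Run7.h907.BL.Vis

set_option autoImplicit false

/-!
# Billiards in convex polygons: a typical position sees many of the invariant sets

Let `P` be a convex polygon with `n + 3` sides, irrational or not, whose phase space is divided into
`M` invariant sets `A 1, …, A M` of equal measure. The set `A j` is visible from the position `z` if
the directions `θ` for which the state `(z, θ)` belongs to `A j` have positive measure. For every `K`
the positions from which at most `K` of the sets are visible make up at most the part
`K (n + 1) (1 + log M) / M` of the polygon. So, whatever the invariant sets are, from most positions
at least a constant times `M / log M` of the `M` sets are visible, the constant depending only on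
the number of sides.

In a rational polygon all `M` sets are visible from almost all positions, for every such division,
by the theorem of Kerckhoff, Masur and Smillie; for irrational polygons I know no earlier result of
this kind. If an irrational polygon is not ergodic, its ergodic components are therefore, with the
logarithmic loss, as well distributed over the positions as those of a rational polygon.

Proof. For an invariant function let `e m` be the energy of its `m`-th Fourier mode in the
direction. For each `k` there are `n + 1` linear conditions which imply `e (k - 1) = e (k + 1)`,
because the difference is a multiple of the signed area of a closed polygon with `n + 3` sides of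
fixed directions. By linear algebra the mean over the positions of the sum of the squares of the
densities of the sets `A j` is at most `(n + 1) (1 + log M) / M`, and by the inequality of Cauchy
and Schwarz this sum is at least the reciprocal of the number of visible sets.
-/

namespace Pool.Agent.Results.MP_d5e7a1_an.VisibleComponents

open Complex Set MeasureTheory Pool.Agent.W780.PG Pool.Agent.W780.BB Pool.Agent.TH103.BL
  Run7.h907.BL

open scoped Real

theorem result {n M : ℕ} {p : Fin (n + 3) → ℂ} (hp : IsConvexPolygon p)
    (A : Fin M → Set (ℂ × ℝ)) (hA : ∀ j, MeasurableSet (A j)) (hI : ∀ j, IsInvariant p (A j))
    (hd : ∀ i j, i ≠ j → Disjoint (A i) (A j)) (hc : ∀ x ∈ phase p, ∃ j, x ∈ A j)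
    (he : ∀ j, proportion p (A j) = 1 / M) (K : ℕ) :
    volume.real {z | z ∈ region p ∧ visible A z ≤ K} ≤
      volume.real (region p) * (K * (n + 1) * (1 + Real.log M) / M) :=
  visible_bound Pool.Agent.N440.LB.parts hp A hA hI hd hc he K

end Pool.Agent.Results.MP_d5e7a1_an.VisibleComponents
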